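import Pool.Agent.Helper50.FE.Goals
import Pool.Agent.Helper92.Ru.AsmA
import Pool.Agent.Helper87.Ru.PHBound

/-!
# Project FE, packet FE-NV: Roth's lemma applied to the auxiliary polynomial
-/

set_option autoImplicit false

open Finset MvPolynomial NumberField

namespace Pool.Agent.Helper91.FE

open Pool.Agent.Helper50.FE Pool.Agent.Helper92.Ru

/-- The auxiliary polynomial. -/
noncomputable def pol {m : ℕ} (r : Fin m → ℕ) (c : (Fin m → ℕ) → ℤ) : MvPolynomial (Fin m) ℚ :=
  ∑ a ∈ box r, monomial (Finsupp.equivFunOnFinite.symm a) (c a : ℚ)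

lemma coeff_pol {m : ℕ} (r : Fin m → ℕ) (c : (Fin m → ℕ) → ℤ) (hc : ∀ a, c a ≠ 0 → a ∈ box r)
    (e : Fin m →₀ ℕ) : coeff e (pol r c) = (c (fun i => e i) : ℚ) := by
  classical
  rw [pol, coeff_sum]
  have h1 : ∀ a ∈ box r, coeff e (monomial (Finsupp.equivFunOnFinite.symm a) (c a : ℚ)) =
      if (fun i => e i) = a then (c a : ℚ) else 0 := by
    intro a _
    rw [coeff_monomial]
    congr 1
    rw [eq_iff_iff, Equiv.symm_apply_eq]
    exact ⟨fun h => h ▸ rfl, fun h => h ▸ rfl⟩
  rw [sum_congr rfl h1, sum_ite_eq]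
  split_ifs with h
  · rfl
  · by_contra h2
    exact h (hc _ fun h3 => h2 (by rw [h3]; simp))

lemma const_shift {m : ℕ} (ξ : Fin m → ℚ) (q : MvPolynomial (Fin m) ℚ) :
    coeff 0 (shiftP ξ q) = eval ξ q := by
  have h : (constantCoeff (σ := Fin m) (R := ℚ)).comp (shiftP ξ).toRingHom = eval ξ := by
    apply MvPolynomial.ringHom_ext
    · intro r
      simp [shiftP]
    · intro i
      simp [shiftP]
  have h2 := congrArg (fun f : MvPolynomial (Fin m) ℚ →+* ℚ => f q) h
  simpa [constantCoeff_eq] using h2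

lemma coeff_shift {m : ℕ} (r : Fin m → ℕ) (c : (Fin m → ℕ) → ℤ) (ξ : Fin m → ℚ)
    (e : Fin m →₀ ℕ) : coeff e (shiftP ξ (pol r c)) = val r c (fun i => e i) ξ := by
  classical
  have h1 := Pool.Agent.Helper40.Ru.coeff_hasse e (shiftP ξ (pol r c)) 0
  rw [← Pool.Agent.Helper40.Ru.shiftP_hasse, const_shift, zero_add] at h1
  have h2 : ((∏ i, ((0 : Fin m →₀ ℕ) i + e i).choose (e i) : ℕ) : ℚ) = 1 := by
    simp
  rw [h2, one_mul] at h1
  rw [← h1, pol, map_sum, map_sum, Pool.Agent.Helper50.FE.val]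
  refine sum_congr rfl fun a _ => ?_
  rw [Pool.Agent.Helper40.Ru.hasse_monomial, eval_monomial, Finsupp.prod_fintype _ _ (fun i => pow_zero _),
    mul_assoc, prod_mul_distrib]
  congr 1
  have h3 : (∏ i ∈ e.support, ((Finsupp.equivFunOnFinite.symm a : Fin m →₀ ℕ) i).choose (e i) : ℕ) =
      ∏ i, (a i).choose (e i) := by
    rw [prod_subset (subset_univ e.support)]
    · rfl
    · intro i _ hi
      rw [Finsupp.notMem_support_iff.1 hi, Nat.choose_zero_right]
  rw [h3]
  congr 1
  push_cast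
  rfl

theorem goalNV : Pool.Agent.Helper50.FE.NV := by
  intro m
  obtain ⟨ω, C, hω, hω1, hC, H⟩ := rothLemma m ℚ (1 / 2) (by norm_num)
  refine ⟨ω, C * (Real.log 4 + 1), hω, mul_pos hC (by have := Real.log_nonneg (x := 4) (by norm_num); linarith), ?_⟩
  intro r ξ c hc0 hc hcb hr hrr hh
  by_contra hcon
  push Not at hcon
  have hp0 : pol r c ≠ 0 := by
    obtain ⟨a, ha⟩ := hc0
    intro h
    have := coeff_pol r c hc (Finsupp.equivFunOnFinite.symm a)
    rw [h, coeff_zero] at this
    exact ha (by exact_mod_cast this.symm)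
  have hdeg : ∀ h, (pol r c).degreeOf h ≤ r h := by
    intro h
    rw [degreeOf_le_iff]
    intro e he
    rw [mem_support_iff, coeff_pol r c hc] at he
    have h1 := hc _ (by exact_mod_cast he)
    unfold Pool.Agent.Helper50.FE.box at h1
    rw [Fintype.mem_piFinset] at h1
    have h2 := mem_range.1 (h1 h)
    omega
  have h4 : (1 : ℝ) ≤ 4 ^ (∑ i, r i) := one_le_pow₀ (by norm_num)
  have hPH : PH (pol r c) ≤ 4 ^ (∑ i, r i) := by
    have h := Pool.Agent.Helper87.Ru.pHBound ℚ (Fin m) (pol r c) (4 ^ (∑ i, r i)) h4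
      (fun e _ => ⟨(c (fun i => e i) : 𝓞 ℚ), by rw [coeff_pol r c hc]; simp⟩)
      (fun v e _ => by
        rw [coeff_pol r c hc, Rat.infinitePlace_apply]
        have := hcb (fun i => e i)
        have h5 : |((c (fun i => e i) : ℤ) : ℚ)| ≤ (4 : ℚ) ^ (∑ i, r i) := by exact_mod_cast this
        exact_mod_cast h5)
    rwa [Module.finrank_self, pow_one] at h
  have hPH1 : 0 < PH (pol r c) := by
    unfold PH
    exact Height.mulHeight_pos _
  have hlog : Real.log (PH (pol r c)) ≤ (∑ i, r i : ℕ) * Real.log 4 := by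
    rw [← Real.log_pow]
    exact Real.log_le_log hPH1 hPH
  have := H r (∑ i, r i) ξ (pol r c) 1 hp0
    (fun h => ⟨hr h, single_le_sum (fun i _ => Nat.zero_le _) (mem_univ h)⟩) hdeg hrr
    (fun h => by
      refine le_trans ?_ (hh h)
      rw [mul_assoc]
      refine mul_le_mul_of_nonneg_left ?_ hC.le
      nlinarith [hlog])
    (fun e he => by
      rw [mem_support_iff, coeff_shift] at he
      by_contra h1
      exact he (hcon (fun i => e i) (not_le.1 h1)))
  norm_num at this

end Pool.Agent.Helper91.FE
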